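import Pool.Agent.R241.DL7

/-! # The part with exactly four letters `x₀`, odd weight: antisymmetry -/

set_option autoImplicit false

namespace Pool.Agent.Helper831_DS

open Pool.Agent.H777R4.DM Pool.Agent.R241.DL

variable {ψ : A} {N : ℕ}

/-- total antisymmetry, first two arguments -/
theorem anti_four (h : IsDM ψ) (hN : LenHom ψ N) (hm : ∀ u, co ψ u ≠ 0 → 4 ≤ u.count 0)
    (hO : Odd N) (a b c d e : ℕ) :
    co ψ (blk [b, a, c, d, e]) = - co ψ (blk [a, b, c, d, e]) := by
  have hs : (-1 : ℚ) ^ (N + 1) = 1 := hO.add_one.neg_one_pow
  set F : ℕ → ℕ → ℕ → ℕ → ℕ → ℚ := fun a b c d e => co ψ (blk [a, b, c, d, e]) with hF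
  have Rot : ∀ p q r s t : ℕ, F q r s t p = F p q r s t := by
    intro p q r s t
    have := blk_rot h hN hm (by norm_num) 1 [p, q, r, s, t] rfl
    simpa [hF] using this
  have R : ∀ z p q r s : ℕ, F z s r q p = F z p q r s := by
    intro z p q r s
    have := blk_rev' h hN hm (by norm_num) z [p, q, r, s] rfl
    rw [hs] at this
    simpa [hF] using this
  have I : ∀ z x p q r : ℕ, F z x p q r + (F z p x q r + (F z p q x r + F z p q r x)) = 0 := by
    intro z x p q r
    exact blk_one h hN hm (by norm_num) z x [p, q, r] rfl
  have J : ∀ z p q r s : ℕ, F z p q r s + (F z q r s p + (F z r s p q + F z s p q r)) = 0 := by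
    intro z p q r s
    have h1 := I p z q r s
    have e1 := Rot p z q r s
    have e2 := (Rot p q z r s).symm.trans (Rot q z r s p).symm
    have e3 := (Rot p q r z s).symm.trans ((Rot q r z s p).symm.trans (Rot r z s p q).symm)
    have e4 := (Rot p q r s z).symm.trans ((Rot q r s z p).symm.trans
      ((Rot r s z p q).symm.trans (Rot s z p q r).symm))
    have e5 := Rot s z p q r
    linarith
  have key : F b a c d e = F a c d e b := (Rot b a c d e).symm
  show F b a c d e = - F a b c d e
  rw [key]
  clear_value F
  have i1 := I a b c d e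
  have i2 := I a b c e d
  have i3 := I a b d c e
  have i4 := I a b d e c
  have i5 := I a b e c d
  have i6 := I a b e d c
  have i7 := I a c b d e
  have i8 := I a c b e d
  have i9 := I a c d b e
  have i10 := I a c d e b
  have i11 := I a c e b d
  have i12 := I a c e d b
  have i13 := I a d b c e
  have i14 := I a d b e c
  have i15 := I a d c b e
  have i16 := I a d c e b
  have i17 := I a d e b c
  have i18 := I a d e c b
  have j1 := J a b c d e
  have j2 := J a b c e d
  have j3 := J a b d c e
  have j4 := J a b d e c
  have j5 := J a b e c d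
  have j6 := J a b e d c
  have r1 := R a b c d e
  have r2 := R a b c e d
  have r3 := R a b d c e
  have r4 := R a b d e c
  have r5 := R a b e c d
  have r6 := R a b e d c
  have r7 := R a c b d e
  have r8 := R a c b e d
  have r9 := R a c d b e
  have r10 := R a c e b d
  have r11 := R a d b c e
  have r12 := R a d c b e
  linarith

end Pool.Agent.Helper831_DS
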