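import Pool.Agent.R241.DL7

/-! # Evaluation of an element of the free Lie algebra on paths of points -/

set_option autoImplicit false

namespace Pool.Agent.Helper831_DS

open Pool.Agent.H777R4.DM Pool.Agent.R241.DL

/-- functions on lists of rational numbers -/
abbrev V : Type := List ℚ → ℚ

/-- the action of `x₁` (multiplication by the first point) and `x₀` (removal of the first point) -/
def op (i : Fin 2) : V →ₗ[ℚ] V where
  toFun f := fun l => match l with
    | [] => 0
    | a :: l => if i = 1 then a * f (a :: l) else f l
  map_add' f g := by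
    funext l
    cases l with
    | nil => simp
    | cons a l =>
      by_cases h : i = 1
      · simp [h]; ring
      · simp [h]
  map_smul' c f := by
    funext l
    cases l with
    | nil => simp
    | cons a l =>
      by_cases h : i = 1
      · simp [h]; ring
      · simp [h]

theorem op_nil (i : Fin 2) (f : V) : op i f [] = 0 := rfl
theorem op_one (f : V) (a : ℚ) (l : List ℚ) : op 1 f (a :: l) = a * f (a :: l) := rfl
theorem op_zero (f : V) (a : ℚ) (l : List ℚ) : op 0 f (a :: l) = f l := rfl

/-- the indicator of the lists of length one -/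
def e : V := fun l => if l.length = 1 then 1 else 0

/-- the representation -/
noncomputable def rho : A →ₐ[ℚ] Module.End ℚ V :=
  MonoidAlgebra.lift ℚ (Module.End ℚ V) (FreeMonoid (Fin 2)) (FreeMonoid.lift op)

theorem rho_cons (i : Fin 2) (w : List (Fin 2)) : rho (wd (i :: w)) = op i * rho (wd w) := by
  have h1 : (wd (i :: w) : A) = wd [i] * wd w := by rw [wd_mul]; rfl
  rw [h1, map_mul]
  congr 1
  unfold rho wd
  rw [MonoidAlgebra.lift_of]
  rfl

theorem rho_nil : rho (wd ([] : List (Fin 2))) = 1 := by
  unfold rho wd
  rw [MonoidAlgebra.lift_of]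
  exact map_one _

/-- the two-level action -/
noncomputable def op2 (p : ℚ) (i : Fin 2) : V × V →ₗ[ℚ] V × V :=
  LinearMap.prod
    ((op i) ∘ₗ LinearMap.fst ℚ V V + (if i = 1 then 0 else 1 : ℚ) • LinearMap.snd ℚ V V)
    ((op i) ∘ₗ LinearMap.snd ℚ V V + (if i = 1 then p else 0) • LinearMap.snd ℚ V V)

theorem op2_apply (p : ℚ) (i : Fin 2) (f : V × V) : op2 p i f =
    (op i f.1 + (if i = 1 then 0 else 1 : ℚ) • f.2, op i f.2 + (if i = 1 then p else 0 : ℚ) • f.2) := rfl

noncomputable def rho2 (p : ℚ) : A →ₐ[ℚ] Module.End ℚ (V × V) :=
  MonoidAlgebra.lift ℚ (Module.End ℚ (V × V)) (FreeMonoid (Fin 2)) (FreeMonoid.lift (op2 p))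

theorem rho2_cons (p : ℚ) (i : Fin 2) (w : List (Fin 2)) :
    rho2 p (wd (i :: w)) = op2 p i * rho2 p (wd w) := by
  have h1 : (wd (i :: w) : A) = wd [i] * wd w := by rw [wd_mul]; rfl
  rw [h1, map_mul]
  congr 1
  unfold rho2 wd
  rw [MonoidAlgebra.lift_of]
  rfl

theorem rho2_nil (p : ℚ) : rho2 p (wd ([] : List (Fin 2))) = 1 := by
  unfold rho2 wd
  rw [MonoidAlgebra.lift_of]
  exact map_one _

theorem rho_x (i : Fin 2) : rho (x i) = op i := by
  have := rho_cons i []
  rw [rho_nil, mul_one] at this
  exact this

theorem rho2_x (p : ℚ) (i : Fin 2) : rho2 p (x i) = op2 p i := by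
  have := rho2_cons p i []
  rw [rho2_nil, mul_one] at this
  exact this

/-- elements of the free Lie algebra act through the primitive coproduct -/
theorem lie_act (p : ℚ) {ψ : A} (h : ψ ∈ LieX) :
    ∃ β γ : ℚ, ∀ f : V × V, rho2 p ψ f = (rho ψ f.1 + β • f.2, rho ψ f.2 + γ • f.2) := by
  induction h using LieSubalgebra.lieSpan_induction with
  | mem y hy =>
    rcases hy with rfl | rfl
    · refine ⟨1, 0, fun f => ?_⟩
      rw [rho2_x, rho_x]
      simp [op2]
    · refine ⟨0, p, fun f => ?_⟩
      rw [rho2_x, rho_x]
      simp [op2]
  | zero => exact ⟨0, 0, fun f => by simp; rfl⟩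
  | add y z _ _ hy hz =>
    obtain ⟨β, γ, hy⟩ := hy
    obtain ⟨β', γ', hz⟩ := hz
    refine ⟨β + β', γ + γ', fun f => ?_⟩
    rw [map_add, map_add, LinearMap.add_apply, hy, hz]
    ext1
    · simp only [Prod.fst_add, LinearMap.add_apply, add_smul]
      abel
    · simp only [Prod.snd_add, LinearMap.add_apply, add_smul]
      abel
  | smul c y _ hy =>
    obtain ⟨β, γ, hy⟩ := hy
    refine ⟨c * β, c * γ, fun f => ?_⟩
    rw [map_smul, map_smul, LinearMap.smul_apply, hy]
    ext1
    · simp only [Prod.smul_fst, LinearMap.smul_apply, smul_add, smul_smul]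
    · simp only [Prod.smul_snd, LinearMap.smul_apply, smul_add, smul_smul]
  | lie y z _ _ hy hz =>
    obtain ⟨β, γ, hy⟩ := hy
    obtain ⟨β', γ', hz⟩ := hz
    refine ⟨β * γ' - β' * γ, 0, fun f => ?_⟩
    rw [Ring.lie_def, map_sub, map_mul, map_mul, map_sub, map_mul, map_mul]
    simp only [LinearMap.sub_apply, Module.End.mul_apply, hy, hz, map_add, map_smul]
    ext1
    · simp only [Prod.fst_sub, smul_add, smul_smul, sub_smul]
      rw [mul_comm β γ', mul_comm β' γ]
      module
    · simp only [Prod.snd_sub, smul_add, smul_smul]
      rw [mul_comm γ γ']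
      module

/-- the paths from the low to the high level -/
def paths (p : ℚ) : List ℚ → List (List ℚ)
  | [] => []
  | a :: l => (a :: (a :: l).map (fun t => p + t)) :: (paths p l).map (fun r => a :: r)

/-- the value of `ψ` at a list of points -/
noncomputable def val (ψ : A) : V := rho ψ e

theorem hi_eq (p : ℚ) (w : List (Fin 2)) :
    ∀ l : List ℚ, (rho2 p (wd w) (0, e)).2 l = val (wd w) (l.map (fun t => p + t)) := by
  unfold val
  induction w with
  | nil =>
    intro l
    rw [rho2_nil, rho_nil]
    simp [e]
  | cons i w ih =>
    intro l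
    rw [rho2_cons, rho_cons, Module.End.mul_apply, Module.End.mul_apply]
    have key : (op2 p i (rho2 p (wd w) (0, e))).2 l
        = op i (rho2 p (wd w) (0, e)).2 l + (if i = 1 then p else 0) * (rho2 p (wd w) (0, e)).2 l := by
      rw [op2_apply]
      rfl
    rw [key]
    cases l with
    | nil =>
      rw [List.map_nil, op_nil, op_nil, ih, List.map_nil]
      have h0 : ∀ w : List (Fin 2), rho (wd w) e [] = 0 := by
        intro w
        cases w with
        | nil => rw [rho_nil]; simp [e]
        | cons j w => rw [rho_cons, Module.End.mul_apply, op_nil]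
      rw [h0]
      ring
    | cons a l =>
      rw [List.map_cons]
      fin_cases i
      · show op 0 _ _ + (if (0 : Fin 2) = 1 then p else 0) * _ = op 0 _ _
        rw [op_zero, op_zero, ih, if_neg (by decide)]
        ring
      · show op 1 _ _ + (if (1 : Fin 2) = 1 then p else 0) * _ = op 1 _ _
        rw [op_one, op_one, ih, if_pos rfl, List.map_cons]
        ring

theorem lo_eq (p : ℚ) (w : List (Fin 2)) :
    ∀ l : List ℚ, (rho2 p (wd w) (0, e)).1 l = ((paths p l).map (val (wd w))).sum := by
  induction w with
  | nil =>
    intro l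
    rw [rho2_nil]
    have h1 : ∀ l : List ℚ, ∀ r ∈ paths p l, r.length = l.length + 1 := by
      intro l
      induction l with
      | nil => intro r hr; simp [paths] at hr
      | cons a l ih =>
        intro r hr
        simp only [paths, List.mem_cons, List.mem_map] at hr
        rcases hr with rfl | ⟨s, hs, rfl⟩
        · simp
        · simp [ih s hs]
    have h2 : ((paths p l).map (val (wd []))) = (paths p l).map (fun _ => (0 : ℚ)) := by
      apply List.map_congr_left
      intro r hr
      unfold val
      rw [rho_nil]
      have h3 := h1 l r hr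
      have h4 : l ≠ [] := by
        rintro rfl
        simp [paths] at hr
      have h5 : r.length ≠ 1 := by
        have := List.length_pos_iff.2 h4
        omega
      simp [e, h5]
    rw [h2]
    simp
  | cons i w ih =>
    intro l
    rw [rho2_cons, Module.End.mul_apply]
    have key : (op2 p i (rho2 p (wd w) (0, e))).1 l
        = op i (rho2 p (wd w) (0, e)).1 l + (if i = 1 then 0 else 1) * (rho2 p (wd w) (0, e)).2 l := by
      rw [op2_apply]
      rfl
    rw [key, hi_eq]
    cases l with
    | nil =>
      rw [op_nil]
      have h0 : val (wd w) [] = 0 := by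
        unfold val
        cases w with
        | nil => rw [rho_nil]; simp [e]
        | cons j w => rw [rho_cons, Module.End.mul_apply, op_nil]
      simp [paths, h0]
    | cons a l =>
      fin_cases i
      · show op 0 _ _ + (if (0 : Fin 2) = 1 then 0 else 1) * _ = _
        rw [op_zero, if_neg (by decide), ih]
        simp only [paths, List.map_cons, List.sum_cons, List.map_map]
        have h1 : val (wd ((0 : Fin 2) :: w)) (a :: (p + a) :: l.map (fun t => p + t))
            = val (wd w) ((p + a) :: l.map (fun t => p + t)) := by
          unfold val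
          rw [rho_cons, Module.End.mul_apply, op_zero]
        have h2 : (val (wd ((0 : Fin 2) :: w)) ∘ fun r => a :: r) = val (wd w) := by
          funext r
          unfold val
          rw [Function.comp_apply, rho_cons, Module.End.mul_apply, op_zero]
        show _ + 1 * _ = val (wd ((0 : Fin 2) :: w)) (a :: (p + a) :: l.map (fun t => p + t)) +
          ((paths p l).map (val (wd ((0 : Fin 2) :: w)) ∘ fun r => a :: r)).sum
        rw [h1, h2]
        ring
      · show op 1 _ _ + (if (1 : Fin 2) = 1 then 0 else 1) * _ = _
        rw [op_one, if_pos rfl, ih]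
        simp only [paths, List.map_cons, List.sum_cons, List.map_map]
        have h1 : ∀ r : List ℚ, val (wd ((1 : Fin 2) :: w)) (a :: r) = a * val (wd w) (a :: r) := by
          intro r
          unfold val
          rw [rho_cons, Module.End.mul_apply, op_one]
        have h2 : (val (wd ((1 : Fin 2) :: w)) ∘ fun r => a :: r)
            = fun r => a * (val (wd w) ∘ fun r => a :: r) r := by
          funext r
          rw [Function.comp_apply, h1]
          rfl
        show _ = val (wd ((1 : Fin 2) :: w)) (a :: (p + a) :: l.map (fun t => p + t)) +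
          ((paths p l).map (val (wd ((1 : Fin 2) :: w)) ∘ fun r => a :: r)).sum
        rw [h1, h2, List.sum_map_mul_left]
        ring

/-- the relation between the values at the paths -/
theorem path_rel (p : ℚ) {ψ : A} (h : ψ ∈ LieX) (l : List ℚ) (hl : l.length ≠ 1) :
    ((paths p l).map (val ψ)).sum = 0 := by
  obtain ⟨β, γ, h1⟩ := lie_act p h
  have h2 := h1 (0, e)
  have h3 : (rho2 p ψ (0, e)).1 l = 0 := by
    rw [h2]
    simp [e, hl]
  let F : A →ₗ[ℚ] ℚ :=
    { toFun := fun ψ => (rho2 p ψ (0, e)).1 l
      map_add' := by intro a b; simp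
      map_smul' := by intro c a; simp }
  let H : A →ₗ[ℚ] ℚ :=
    { toFun := fun ψ => ((paths p l).map (val ψ)).sum
      map_add' := by
        intro a b
        have : (fun r => val (a + b) r) = fun r => val a r + val b r := by
          funext r
          unfold val
          simp
        show ((paths p l).map (fun r => val (a + b) r)).sum = _
        rw [this, List.sum_map_add]
      map_smul' := by
        intro c a
        have : (fun r => val (c • a) r) = fun r => c * val a r := by
          funext r
          unfold val
          simp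
        show ((paths p l).map (fun r => val (c • a) r)).sum = _
        rw [this, List.sum_map_mul_left]
        rfl }
  have h4 : F = H := lin_ext fun w => lo_eq p w l
  have h5 : F ψ = H ψ := by rw [h4]
  have h6 : F ψ = 0 := h3
  rw [h6] at h5
  exact h5.symm

end Pool.Agent.Helper831_DS
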