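import Pool.Agent.Helper831_DS.Four1
import Pool.Agent.Helper831_DS.Four2

/-! # The values at points as a polynomial -/

set_option autoImplicit false

namespace Pool.Agent.Helper831_DS

open Pool.Agent.H777R4.DM Pool.Agent.R241.DL

theorem val_one (w : List (Fin 2)) (a : ℚ) (l : List ℚ) :
    val (wd ((1 : Fin 2) :: w)) (a :: l) = a * val (wd w) (a :: l) := by
  unfold val
  rw [rho_cons, Module.End.mul_apply, op_one]

theorem val_zero (w : List (Fin 2)) (a : ℚ) (l : List ℚ) :
    val (wd ((0 : Fin 2) :: w)) (a :: l) = val (wd w) l := by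
  unfold val
  rw [rho_cons, Module.End.mul_apply, op_zero]

theorem val_nil (l : List ℚ) : val (wd ([] : List (Fin 2))) l = if l.length = 1 then 1 else 0 := by
  unfold val
  rw [rho_nil]
  rfl

theorem val_rep (k : ℕ) (w : List (Fin 2)) (a : ℚ) (l : List ℚ) :
    val (wd (List.replicate k 1 ++ w)) (a :: l) = a ^ k * val (wd w) (a :: l) := by
  induction k with
  | zero => simp
  | succ k ih =>
    rw [List.replicate_succ, List.cons_append, val_one, ih]
    ring

theorem val_blk_cons (k b : ℕ) (L : List ℕ) (a : ℚ) (l : List ℚ) :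
    val (wd (blk (k :: b :: L))) (a :: l) = a ^ k * val (wd (blk (b :: L))) l := by
  rw [blk, val_rep, val_zero]

theorem val_blk_one (k : ℕ) (a : ℚ) : val (wd (blk [k])) [a] = a ^ k := by
  have : blk [k] = List.replicate k 1 ++ [] := by simp [blk]
  rw [this, val_rep, val_nil]
  simp

theorem val_eq_zero (w : List (Fin 2)) : ∀ l : List ℚ, w.count 0 + 1 ≠ l.length → val (wd w) l = 0 := by
  induction w with
  | nil =>
    intro l h
    rw [val_nil, if_neg]
    simpa [eq_comm] using h
  | cons i w ih =>
    intro l h
    cases l with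
    | nil => unfold val; rw [rho_cons, Module.End.mul_apply, op_nil]
    | cons a l =>
      fin_cases i
      · show val (wd ((0 : Fin 2) :: w)) _ = 0
        rw [val_zero]
        apply ih
        intro h2
        apply h
        simp at h2 ⊢
        omega
      · show val (wd ((1 : Fin 2) :: w)) _ = 0
        rw [val_one, ih, mul_zero]
        intro h2
        apply h
        simp at h2 ⊢
        omega

theorem exists_blk (w : List (Fin 2)) :
    ∃ L : List ℕ, blk L = w ∧ L.length = w.count 0 + 1 ∧ ∀ a ∈ L, a ≤ w.length := by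
  induction w with
  | nil => exact ⟨[0], by simp [blk], by simp, by simp⟩
  | cons i w ih =>
    obtain ⟨L, h1, h2, h3⟩ := ih
    cases L with
    | nil => simp at h2
    | cons b L =>
      fin_cases i
      · refine ⟨0 :: b :: L, ?_, ?_, ?_⟩
        · rw [blk, h1]
          simp
        · simp at h2 ⊢
          omega
        · intro a ha
          rcases List.mem_cons.1 ha with rfl | ha
          · omega
          · have := h3 a ha
            simp
            omega
      · refine ⟨(b + 1) :: L, ?_, ?_, ?_⟩
        · cases L with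
          | nil =>
            simp only [blk] at h1 ⊢
            rw [List.replicate_succ, h1]
            rfl
          | cons c L =>
            simp only [blk] at h1 ⊢
            rw [List.replicate_succ, List.cons_append, h1]
            rfl
        · simp at h2 ⊢
          omega
        · intro a ha
          rcases List.mem_cons.1 ha with rfl | ha
          · have := h3 b (by simp)
            simp
            omega
          · have := h3 a (by simp [ha])
            simp
            omega

theorem rep_cons_inj {k l : ℕ} {u v : List (Fin 2)}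
    (h : List.replicate k (1 : Fin 2) ++ 0 :: u = List.replicate l 1 ++ 0 :: v) : k = l ∧ u = v := by
  induction k generalizing l with
  | zero =>
    cases l with
    | zero => simpa using h
    | succ l => simp [List.replicate_succ] at h
  | succ k ih =>
    cases l with
    | zero => simp [List.replicate_succ] at h
    | succ l =>
      rw [List.replicate_succ, List.replicate_succ, List.cons_append, List.cons_append,
        List.cons.injEq] at h
      obtain ⟨h1, h2⟩ := ih h.2
      exact ⟨by omega, h2⟩

theorem blk_inj (L : List ℕ) : ∀ M : List ℕ, L.length = M.length → blk L = blk M → L = M := by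
  induction L with
  | nil =>
    intro M h _
    exact (List.length_eq_zero_iff.1 h.symm).symm
  | cons a L ih =>
    intro M h h2
    cases M with
    | nil => simp at h
    | cons b M =>
      cases L with
      | nil =>
        have : M = [] := by
          simpa using h
        subst this
        simp only [blk] at h2
        have := congrArg List.length h2
        simp at this
        rw [this]
      | cons c L =>
        cases M with
        | nil => simp at h
        | cons d M =>
          simp only [blk] at h2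
          obtain ⟨h3, h4⟩ := rep_cons_inj h2
          rw [h3, ih (d :: M) (by simpa using h) h4]

/-- the coefficients -/
noncomputable def cf (ψ : A) (N : ℕ) (a : Fin 5 → Fin (N + 1)) : ℚ :=
  co ψ (blk [(a 0 : ℕ), a 1, a 2, a 3, a 4])

/-- the polynomial function -/
noncomputable def Gf (ψ : A) (N : ℕ) (t : Fin 5 → ℚ) : ℚ :=
  ∑ a : Fin 5 → Fin (N + 1), cf ψ N a * ∏ i, t i ^ (a i : ℕ)

theorem val_word (N : ℕ) (w : List (Fin 2)) (hw : w.length ≤ N) (t : Fin 5 → ℚ) :
    val (wd w) [t 0, t 1, t 2, t 3, t 4] =
      ∑ a : Fin 5 → Fin (N + 1), (if blk [(a 0 : ℕ), a 1, a 2, a 3, a 4] = w then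
        ∏ i, t i ^ (a i : ℕ) else 0) := by
  by_cases hc : w.count 0 = 4
  · obtain ⟨L, h1, h2, h3⟩ := exists_blk w
    rw [hc] at h2
    obtain ⟨l0, l1, l2, l3, l4, rfl⟩ : ∃ l0 l1 l2 l3 l4, L = [l0, l1, l2, l3, l4] := by
      match L, h2 with
      | [l0, l1, l2, l3, l4], _ => exact ⟨l0, l1, l2, l3, l4, rfl⟩
    have b0 := h3 l0 (by simp)
    have b1 := h3 l1 (by simp)
    have b2 := h3 l2 (by simp)
    have b3 := h3 l3 (by simp)
    have b4 := h3 l4 (by simp)
    have hv : val (wd w) [t 0, t 1, t 2, t 3, t 4]
        = t 0 ^ l0 * (t 1 ^ l1 * (t 2 ^ l2 * (t 3 ^ l3 * t 4 ^ l4))) := by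
      rw [← h1, val_blk_cons, val_blk_cons, val_blk_cons, val_blk_cons, val_blk_one]
    rw [hv, Finset.sum_eq_single (![⟨l0, by omega⟩, ⟨l1, by omega⟩, ⟨l2, by omega⟩, ⟨l3, by omega⟩,
      ⟨l4, by omega⟩] : Fin 5 → Fin (N + 1))]
    · rw [if_pos (by simpa using h1)]
      simp [Fin.prod_univ_five]
      ring
    · intro a _ ha
      rw [if_neg]
      intro h4
      apply ha
      have h5 : [(a 0 : ℕ), (a 1 : ℕ), (a 2 : ℕ), (a 3 : ℕ), (a 4 : ℕ)] = [l0, l1, l2, l3, l4] :=
        blk_inj _ _ rfl (h4.trans h1.symm)
      simp only [List.cons.injEq, and_true] at h5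
      obtain ⟨e0, e1, e2, e3, e4⟩ := h5
      funext i
      apply Fin.ext
      fin_cases i <;> simp [e0, e1, e2, e3, e4]
    · intro h
      exact absurd (Finset.mem_univ _) h
  · rw [val_eq_zero _ _ (by simp; omega)]
    symm
    apply Finset.sum_eq_zero
    intro a _
    rw [if_neg]
    intro h
    apply hc
    rw [← h]
    simp [blk, List.count_replicate]

theorem val_eq_Gf {ψ : A} {N : ℕ} (hN : LenHom ψ N) (t : Fin 5 → ℚ) :
    val ψ [t 0, t 1, t 2, t 3, t 4] = Gf ψ N t := by
  set l : List ℚ := [t 0, t 1, t 2, t 3, t 4] with hl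
  let F : A →ₗ[ℚ] ℚ :=
    { toFun := fun ψ => val ψ l
      map_add' := by intro a b; unfold val; simp
      map_smul' := by intro c a; unfold val; simp }
  have h1 : F ψ = ∑ m ∈ ψ.coeff.support, co ψ (FreeMonoid.toList m) * val (wd (FreeMonoid.toList m)) l := by
    conv_lhs => rw [Pool.Agent.H777R4.DM.Lead2.expand ψ]
    rw [map_sum]
    refine Finset.sum_congr rfl fun m _ => ?_
    rw [map_smul]
    rfl
  show F ψ = _
  rw [h1]
  have h2 : ∀ m ∈ ψ.coeff.support, co ψ (FreeMonoid.toList m) * val (wd (FreeMonoid.toList m)) l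
      = ∑ a : Fin 5 → Fin (N + 1), co ψ (FreeMonoid.toList m) *
        (if blk [(a 0 : ℕ), a 1, a 2, a 3, a 4] = FreeMonoid.toList m then
        ∏ i, t i ^ (a i : ℕ) else 0) := by
    intro m hm
    have h3 : co ψ (FreeMonoid.toList m) ≠ 0 := by
      unfold co
      simpa using hm
    rw [hl, val_word N _ (hN _ h3).le, Finset.mul_sum]
  rw [Finset.sum_congr rfl h2, Finset.sum_comm]
  unfold Gf
  refine Finset.sum_congr rfl fun a _ => ?_
  by_cases h4 : FreeMonoid.ofList (blk [(a 0 : ℕ), a 1, a 2, a 3, a 4]) ∈ ψ.coeff.support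
  · rw [Finset.sum_eq_single_of_mem _ h4]
    · rw [if_pos (by rfl)]
      rfl
    · intro m _ hm
      rw [if_neg, mul_zero]
      intro h5
      apply hm
      rw [h5]
      rfl
  · have h5 : cf ψ N a = 0 := by
      unfold cf co
      simpa using h4
    rw [h5, zero_mul]
    apply Finset.sum_eq_zero
    intro m hm
    rw [if_neg, mul_zero]
    intro h6
    apply h4
    rw [h6]
    exact hm

theorem Gf_perm (ψ : A) (N : ℕ) (σ : Equiv.Perm (Fin 5)) (s : ℚ)
    (h : ∀ a, cf ψ N (a ∘ σ) = s * cf ψ N a) (t : Fin 5 → ℚ) :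
    Gf ψ N (t ∘ σ) = s * Gf ψ N t := by
  unfold Gf
  rw [Finset.mul_sum, ← Equiv.sum_comp (Equiv.arrowCongr σ.symm (Equiv.refl (Fin (N + 1))))]
  refine Finset.sum_congr rfl fun a _ => ?_
  have h1 : (Equiv.arrowCongr σ.symm (Equiv.refl (Fin (N + 1)))) a = a ∘ σ := by
    funext i
    simp [Equiv.arrowCongr]
  rw [h1, h, mul_assoc]
  congr 2
  exact Equiv.prod_comp σ (fun i => t i ^ (a i : ℕ))

end Pool.Agent.Helper831_DS
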