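import Pool.Agent.Helper831_DS.Four3

/-! # The part with exactly four letters `x₀` vanishes in odd weight -/

set_option autoImplicit false

namespace Pool.Agent.Helper831_DS

open Pool.Agent.H777R4.DM Pool.Agent.R241.DL

/-- A polynomial function with a nonzero period is constant. -/
theorem period (P : Polynomial ℚ) (h : ℚ) (h0 : h ≠ 0) (hP : ∀ y, P.eval (y + h) = P.eval y) (y : ℚ) :
    P.eval y = P.eval 0 := by
  have h1 : ∀ n : ℕ, P.eval (n * h) = P.eval 0 := by
    intro n
    induction n with
    | zero => simp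
    | succ n ih =>
      have : ((n + 1 : ℕ) : ℚ) * h = n * h + h := by push_cast; ring
      rw [this, hP, ih]
  have h2 : P - Polynomial.C (P.eval 0) = 0 := by
    apply Polynomial.eq_zero_of_infinite_isRoot
    apply Set.infinite_of_injective_forall_mem (f := fun n : ℕ => (n : ℚ) * h)
    · intro m n hmn
      have := mul_right_cancel₀ h0 hmn
      exact_mod_cast this
    · intro n
      show Polynomial.eval _ _ = 0
      rw [Polynomial.eval_sub, Polynomial.eval_C, h1, sub_self]
  rw [sub_eq_zero.1 h2]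
  simp

section

variable {ψ : A} {N : ℕ}

theorem Gf_zero (h : IsDM ψ) (hN : LenHom ψ N) (hm : ∀ u, co ψ u ≠ 0 → 4 ≤ u.count 0)
    (hO : Odd N) (t : Fin 5 → ℚ) : Gf ψ N t = 0 := by
  set G : ℚ → ℚ → ℚ → ℚ → ℚ → ℚ := fun a b c d e => Gf ψ N ![a, b, c, d, e] with hG
  have A1 : ∀ a b c d e, G b a c d e = - G a b c d e := by
    intro a b c d e
    have h1 := Gf_perm ψ N (Equiv.swap 0 1) (-1) (by
      intro α
      have := anti_four h hN hm hO (α 0) (α 1) (α 2) (α 3) (α 4)
      rw [neg_one_mul]
      exact this) ![a, b, c, d, e]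
    have h2 : (![a, b, c, d, e] : Fin 5 → ℚ) ∘ (Equiv.swap 0 1) = ![b, a, c, d, e] := by
      funext i
      fin_cases i <;> rfl
    rw [h2, neg_one_mul] at h1
    exact h1
  have A2 : ∀ a b c d e, G b c d e a = G a b c d e := by
    intro a b c d e
    have h1 := Gf_perm ψ N (finRotate 5) 1 (by
      intro α
      have := blk_rot h hN hm (by norm_num) 1 [(α 0 : ℕ), (α 1 : ℕ), (α 2 : ℕ), (α 3 : ℕ), (α 4 : ℕ)] rfl
      rw [one_mul]
      exact this) ![a, b, c, d, e]
    have h2 : (![a, b, c, d, e] : Fin 5 → ℚ) ∘ (finRotate 5) = ![b, c, d, e, a] := by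
      funext i
      fin_cases i <;> rfl
    rw [h2, one_mul] at h1
    exact h1
  have E : ∀ p q0 q1 q2 q3, G q0 (p + q0) (p + q1) (p + q2) (p + q3)
      + G q0 q1 (p + q1) (p + q2) (p + q3) + G q0 q1 q2 (p + q2) (p + q3)
      + G q0 q1 q2 q3 (p + q3) = 0 := by
    intro p q0 q1 q2 q3
    have h1 := path_rel p h.mem [q0, q1, q2, q3] (by simp)
    have h2 : ∀ a b c d e : ℚ, val ψ [a, b, c, d, e] = G a b c d e := by
      intro a b c d e
      exact val_eq_Gf hN ![a, b, c, d, e]
    simp only [paths, List.map_cons, List.map_nil, List.sum_cons, List.sum_nil, h2] at h1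
    linarith
  have A3 : ∀ a b c d e, G a c b d e = - G a b c d e := by
    intro a b c d e
    rw [← A2 a c b d e, A1 b c d e a, A2 a b c d e]
  have A4 : ∀ a b c d e, G a b d c e = - G a b c d e := by
    intro a b c d e
    rw [← A2 a b d c e, A3 b c d e a, A2 a b c d e]
  -- the two parallelogram relations
  have R1 : ∀ a b c d r s, a + d = b + c → G a c d r s - G b c d r s + G a b d r s - G a b c r s = 0 := by
    intro a b c d r s hd
    have h1 := E (c - a) a b (r - (c - a)) (s - (c - a))
    have h2 := E (c - a) b a (r - (c - a)) (s - (c - a))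
    have e1 : c - a + a = c := by ring
    have e2 : c - a + b = d := by linarith
    have e3 : c - a + (r - (c - a)) = r := by ring
    have e4 : c - a + (s - (c - a)) = s := by ring
    rw [e1, e2, e3, e4] at h1 h2
    have k1 := A1 a b (r - (c - a)) r s
    have k2 := A1 a b (r - (c - a)) (s - (c - a)) s
    have k3 := A3 b c d r s
    have k4 := A1 a b c r s
    linarith
  have P1 : ∀ a b d r s, G a b d r s = - G a (a + d - b) d r s := by
    intro a b d r s
    have h1 := R1 a b (a + d - b) d r s (by ring)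
    have h2 := R1 a (a + d - b) b d r s (by ring)
    have k1 := A1 b (a + d - b) d r s
    have k2 := A3 a b (a + d - b) r s
    linarith
  have P2 : ∀ a b d r s, G a b d r s = - G a (a + r - b) d r s := by
    intro a b d r s
    have h1 := P1 a b r d s
    rw [A4 a b d r s, A4 a (a + r - b) d r s] at h1
    linarith
  have P3 : ∀ a b d r s, G a (b + (r - d)) d r s = G a b d r s := by
    intro a b d r s
    have h1 := P1 a b d r s
    have h2 := P2 a (a + d - b) d r s
    have e1 : a + r - (a + d - b) = b + (r - d) := by ring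
    rw [e1] at h2
    linarith
  have Z1 : ∀ a b d r s, r ≠ d → G a b d r s = 0 := by
    intro a b d r s hrd
    let P : Polynomial ℚ := ∑ α : Fin 5 → Fin (N + 1), Polynomial.C
      (cf ψ N α * (a ^ (α 0 : ℕ) * d ^ (α 2 : ℕ) * r ^ (α 3 : ℕ) * s ^ (α 4 : ℕ))) *
      Polynomial.X ^ (α 1 : ℕ)
    have hP : ∀ y, P.eval y = G a y d r s := by
      intro y
      show Polynomial.eval y (∑ α : Fin 5 → Fin (N + 1), _) = Gf ψ N _
      rw [Polynomial.eval_finset_sum]
      unfold Gf
      refine Finset.sum_congr rfl fun α _ => ?_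
      rw [Fin.prod_univ_five]
      simp
      ring
    have h1 : ∀ y, P.eval y = P.eval 0 := period P (r - d) (sub_ne_zero.2 hrd) (by
      intro y
      rw [hP, hP, P3])
    have h2 : G a b d r s = G a a d r s := by
      rw [← hP, ← hP, h1 b, h1 a]
    have h3 := A1 a a d r s
    linarith
  have Z2 : ∀ a b c d e, G a b c d e = 0 := by
    intro a b c d e
    by_cases hcd : d = c
    · subst hcd
      have := A4 a b d d e
      linarith
    · exact Z1 a b c d e hcd
  have := Z2 (t 0) (t 1) (t 2) (t 3) (t 4)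
  have h5 : (![t 0, t 1, t 2, t 3, t 4] : Fin 5 → ℚ) = t := by
    funext i
    fin_cases i <;> rfl
  rw [hG] at this
  simp only [h5] at this
  exact this

/-- In odd weight there is no part with exactly four letters `x₀` of lowest degree. -/
theorem five_le (h : IsDM ψ) (hN : LenHom ψ N) (hm : ∀ u, co ψ u ≠ 0 → 4 ≤ u.count 0)
    (hO : Odd N) (u : List (Fin 2)) (hu : co ψ u ≠ 0) : 5 ≤ u.count 0 := by
  have h4 := hm u hu
  by_contra hc
  have hc4 : u.count 0 = 4 := by omega
  obtain ⟨L, h1, h2, h3⟩ := exists_blk u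
  rw [hc4] at h2
  obtain ⟨l0, l1, l2, l3, l4, rfl⟩ : ∃ l0 l1 l2 l3 l4, L = [l0, l1, l2, l3, l4] := by
    match L, h2 with
    | [l0, l1, l2, l3, l4], _ => exact ⟨l0, l1, l2, l3, l4, rfl⟩
  have hl := hN u hu
  have b0 := h3 l0 (by simp)
  have b1 := h3 l1 (by simp)
  have b2 := h3 l2 (by simp)
  have b3 := h3 l3 (by simp)
  have b4 := h3 l4 (by simp)
  set α : Fin 5 → Fin (N + 1) := ![⟨l0, by omega⟩, ⟨l1, by omega⟩, ⟨l2, by omega⟩, ⟨l3, by omega⟩,
      ⟨l4, by omega⟩] with hα
  have hcf : cf ψ N α ≠ 0 := by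
    have : cf ψ N α = co ψ u := by
      rw [← h1]
      rfl
    rw [this]
    exact hu
  let D : (Fin 5 → Fin (N + 1)) → (Fin 5 →₀ ℕ) := fun β => Finsupp.equivFunOnFinite.symm (fun i => (β i : ℕ))
  have hD : Function.Injective D := by
    intro β γ hβ
    funext i
    apply Fin.ext
    have := DFunLike.congr_fun hβ i
    simpa [D] using this
  let Q : MvPolynomial (Fin 5) ℚ := ∑ β : Fin 5 → Fin (N + 1), MvPolynomial.monomial (D β) (cf ψ N β)
  have hQ : Q = 0 := by
    apply MvPolynomial.funext
    intro t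
    rw [map_zero, ← Gf_zero h hN hm hO t]
    show MvPolynomial.eval t (∑ β : Fin 5 → Fin (N + 1), _) = _
    rw [map_sum]
    unfold Gf
    refine Finset.sum_congr rfl fun β _ => ?_
    rw [MvPolynomial.eval_monomial, Finsupp.prod_fintype _ _ (by simp)]
    rfl
  have h6 : MvPolynomial.coeff (D α) Q = cf ψ N α := by
    show MvPolynomial.coeff (D α) (∑ β : Fin 5 → Fin (N + 1), _) = _
    rw [MvPolynomial.coeff_sum, Finset.sum_eq_single α]
    · rw [MvPolynomial.coeff_monomial, if_pos rfl]
    · intro β _ hβ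
      rw [MvPolynomial.coeff_monomial, if_neg (fun h => hβ (hD h))]
    · intro h
      exact absurd (Finset.mem_univ _) h
  rw [hQ, MvPolynomial.coeff_zero] at h6
  exact hcf h6.symm

end

end Pool.Agent.Helper831_DS
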